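import Pool.Agent.MP_77f003_co.H49.USpec

/-!
A comb gives a fat clique: tokens run along blocks of the spine and are joined through the hubs.
-/

namespace Pool.Agent.MP_77f003_co.H49

open SimpleGraph

variable {V : Type} {G : SimpleGraph V} {W : Subgroup (G ≃g G)}

theorem comb_fat {n K h : ℕ} (D : Finset (Fin n)) (B : Fin n → Set V) (E : Fin n → Fin n → Set V)
    (hD : h ≤ D.card) (h1 : ∀ a, (B a).Nonempty ∧ Conn G (B a))
    (h2 : ∀ a ∈ D, ∀ b ∈ D, ∃ x ∈ B a, ∃ y ∈ B b, Lk G (E a b) x y)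
    (h3 : ∀ a b, a ≠ b → Far G K (B a) (B b))
    (h4 : ∀ a b a' b', (a, b) ≠ (a', b') → Far G K (E a b) (E a' b'))
    (h5 : ∀ a b e, e ≠ a → e ≠ b → Far G K (E a b) (B e)) : FatCl G K h := by
  refine ⟨D.map Fin.valEmbedding, fun i => if hi : i < n then B ⟨i, hi⟩ else ∅,
    fun i j => if hi : i < n then if hj : j < n then E ⟨i, hi⟩ ⟨j, hj⟩ else ∅ else ∅,
    by rwa [Finset.card_map], ?_, ?_, ?_, ?_, ?_⟩
  all_goals simp only [Finset.mem_map, Fin.valEmbedding_apply]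
  · rintro _ ⟨a, -, rfl⟩
    simpa [Conn] using h1 a
  · rintro _ ⟨a, ha, rfl⟩ _ ⟨b, hb, rfl⟩ -
    simpa using h2 a ha b hb
  · rintro _ ⟨a, -, rfl⟩ _ ⟨b, -, rfl⟩ hab
    simpa using h3 a b fun e => hab (e ▸ rfl)
  · rintro _ ⟨a, -, rfl⟩ _ ⟨b, -, rfl⟩ _ ⟨a', -, rfl⟩ _ ⟨b', -, rfl⟩ - - hne
    have e : (a, b) ≠ (a', b') := fun e => by
      obtain ⟨rfl, rfl⟩ := Prod.mk.inj e
      simp at hne
    simpa using h4 a b a' b' e
  · rintro _ ⟨a, -, rfl⟩ _ ⟨b, -, rfl⟩ _ ⟨e, -, rfl⟩ - ha hb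
    simpa using h5 a b e (fun e => ha (e ▸ rfl)) fun e => hb (e ▸ rfl)

theorem comb_many {P T : ℕ} {S S' : Set V} (hS : S ⊆ S') (h : Many W (Cl G W P S') T) :
    Many W (Cl G W P S) T := by
  have hle : Cl G W P S ≤ Cl G W P S' := Subgroup.closure_mono
    fun w ⟨hw, x, hx, z, hz, hd⟩ => ⟨hw, x, hS hx, z, hS hz, hd⟩
  have hd := Subgroup.relIndex_dvd_of_le_left W hle
  by_cases h0 : (Cl G W P S).relIndex W = 0
  · exact Or.inl h0
  · rcases h with h | h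
    · rw [h] at hd; exact absurd (zero_dvd_iff.1 hd) h0
    · exact Or.inr (h.trans (Nat.le_of_dvd (Nat.pos_of_ne_zero h0) hd))

theorem comb_chain {S : ℕ → Set V} {m : ℕ} (h1 : ∀ a ≤ m, Conn G (S a))
    (h2 : ∀ a < m, (S a ∩ S (a + 1)).Nonempty) {U : Set V} {a : ℕ} {x : V} (hx : x ∈ S a) (d : ℕ) :
    a + d ≤ m → (∀ b, a ≤ b → b ≤ a + d → S b ⊆ U) → ∀ y ∈ S (a + d), Lk G U x y := by
  induction d with
  | zero => exact fun hm hU y hy => (h1 a hm x hx y hy).mono (hU a le_rfl le_rfl)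
  | succ d ih =>
    intro hm hU y hy
    obtain ⟨z, hz, hz'⟩ := h2 (a + d) (by omega)
    exact (ih (by omega) (fun b e1 e2 => hU b e1 (by omega)) z hz).trans
      ((h1 (a + d + 1) hm z hz' y hy).mono (hU _ (by omega) le_rfl))

theorem comb_coset {Γ : Type} [Group Γ] {W C : Subgroup Γ} {h k : ℕ} (h0 : C.relIndex W ≠ 0)
    (hk : C.relIndex W ≤ k) (w : Fin (h * k) → Γ) (hw : ∀ a, w a ∈ W) :
    ∃ D : Finset (Fin (h * k)), h ≤ D.card ∧ ∀ a ∈ D, ∀ b ∈ D, (w a)⁻¹ * w b ∈ C := by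
  classical
  have : Finite (W ⧸ C.subgroupOf W) := Subgroup.index_ne_zero_iff_finite.1 h0
  have := Fintype.ofFinite (W ⧸ C.subgroupOf W)
  obtain ⟨q, -, hq⟩ := Finset.exists_le_card_fiber_of_mul_le_card_of_maps_to (n := h)
    (s := Finset.univ) (t := Finset.univ)
    (f := fun a => (QuotientGroup.mk ⟨w a, hw a⟩ : W ⧸ C.subgroupOf W))
    (fun _ _ => Finset.mem_univ _) Finset.univ_nonempty (by
      rw [Finset.card_univ, Finset.card_fin, ← Nat.card_eq_fintype_card, mul_comm]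
      exact Nat.mul_le_mul_left _ hk)
  refine ⟨_, hq, fun a ha b hb => ?_⟩
  have := QuotientGroup.eq.1 ((Finset.mem_filter.1 ha).2.trans (Finset.mem_filter.1 hb).2.symm)
  exact this

theorem comb_off (μ t : ℕ) (hμ : 0 < μ) : ∃ o ∈ ({0, 2 * μ} : Finset ℕ), ∃ u,
    u * (4 * μ) + μ ≤ t + o ∧ t + o + μ < u * (4 * μ) + 4 * μ := by
  have h1 := Nat.div_add_mod' t (4 * μ)
  have h2 := Nat.mod_lt t (by omega : 4 * μ > 0)
  by_cases e1 : t % (4 * μ) < μ
  · exact ⟨2 * μ, by simp, t / (4 * μ), by omega, by omega⟩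
  by_cases e2 : t % (4 * μ) < 3 * μ
  · exact ⟨0, by simp, t / (4 * μ), by omega, by omega⟩
  · exact ⟨2 * μ, by simp, t / (4 * μ) + 1, by rw [add_mul]; omega, by rw [add_mul]; omega⟩

theorem comb_mul {u v : ℕ} (β : ℕ) (h : u < v) : u * β + β ≤ v * β := by
  rw [← Nat.succ_mul]; exact Nat.mul_le_mul_right _ h

theorem comb_shift [Fact G.Connected] (g g' : G ≃g G) (x y : V) :
    G.dist x ((g⁻¹ * g') y) = G.dist (g x) (g' y) := by
  rw [← dist_iso g]; simp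

theorem combSpec (hT : TokenSpec) : CombSpec := by
  classical
  intro K h k
  obtain ⟨P, ω, hT⟩ := hT K (h * k)
  obtain ⟨μ, hμ⟩ : ∃ μ, μ = 3 * (3 * P + 3 * K + 1) := ⟨_, rfl⟩
  obtain ⟨β, hβ⟩ : ∃ β, β = 4 * μ := ⟨_, rfl⟩
  obtain ⟨c, hc⟩ : ∃ c, c = 3 * P + 3 * K + 1 := ⟨_, rfl⟩
  refine ⟨c, ω * β + β, P, h * k * (h * k), 2 * (2 ^ (h * k) * (h * k * (h * k) + 1)), ?_⟩
  intro V G _ W S m t γ H C hC
  choose off hoff τ hτ using fun i => comb_off μ (t i) (by omega)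
  rw [← hβ] at hτ
  obtain ⟨o, ho, hJ⟩ := Finset.exists_le_card_fiber_of_mul_le_card_of_maps_to
    (n := 2 ^ (h * k) * (h * k * (h * k) + 1)) (s := Finset.range (2 * _)) (f := off)
    (fun i _ => hoff i) (by simp)
    (by rw [Finset.card_range]; exact Nat.mul_le_mul_right _ Finset.card_le_two)
  have hoβ : o < β := by
    simp only [Finset.mem_insert, Finset.mem_singleton] at ho
    omega
  set J := (Finset.range (2 * (2 ^ (h * k) * (h * k * (h * k) + 1)))).filter fun i => off i = o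
    with hJd
  obtain ⟨m', hm1, hm2⟩ : ∃ m', m' * β ≤ m + o ∧ m + o < m' * β + β :=
    ⟨(m + o) / β, Nat.div_mul_le_self _ _, Nat.lt_div_mul_add (by omega)⟩
  set S' : ℕ → Set V := fun u => {x | ∃ a ≤ m, u * β ≤ a + o ∧ a + o < u * β + β ∧ x ∈ S a}
    with hS'
  have hle : ∀ {u v : ℕ}, u ≤ v → u * β ≤ v * β := fun e => Nat.mul_le_mul_right _ e
  have hst : ∀ u ≤ m', u * β - o ≤ m := fun u hu => by have := hle hu; omega
  have hne : ∀ u ≤ m', (S' u).Nonempty := fun u hu => by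
    obtain ⟨x, hx⟩ := (hC.conn _ (hst u hu)).1
    exact ⟨x, _, hst u hu, by omega, by omega, hx⟩
  obtain ⟨T, w, r, hTc, hw, hTf, hr⟩ := hT G W S' m' (fun u hu => ⟨hne u hu, by
      have key : ∀ a b, a ≤ b → b ≤ m → u * β ≤ a + o → b + o < u * β + β → ∀ x ∈ S a,
          ∀ y ∈ S b, Lk G (S' u) x y := by
        intro a b hab hb e1 e2 x hx y hy
        obtain ⟨d, rfl⟩ := Nat.exists_eq_add_of_le hab
        exact comb_chain (fun a ha => (hC.conn a ha).2) hC.meet hx d hb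
          (U := S' u) (fun b' e3 e4 z hz => ⟨b', by omega, by omega, by omega, hz⟩) y hy
      rintro x ⟨a, ha, a1, a2, hx⟩ y ⟨b, hb, b1, b2, hy⟩
      rcases le_total a b with e | e
      exacts [key a b e hb a1 b2 x hx y hy, (key b a e ha b1 a2 y hy x hx).symm]⟩)
    (fun u hu => by
      have e1 := comb_mul β hu
      obtain ⟨x, hx, hx'⟩ := hC.meet (u * β + β - o - 1) (by omega)
      exact ⟨x, ⟨_, by omega, by omega, by omega, hx⟩, _, by omega, by rw [add_mul]; omega,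
        by rw [add_mul]; omega, hx'⟩)
    (by
      rintro u v huv - g hg x ⟨a, ha, a1, a2, hx⟩ y ⟨b, hb, b1, b2, hy⟩
      have e1 := hle huv
      rw [add_mul] at e1
      have := hC.far a b (by omega) hb g hg x hx y hy
      omega)
    (fun u hu => comb_many (by
      intro x hx
      simp only [Set.mem_iUnion, Set.mem_ofPred_eq] at hx ⊢
      obtain ⟨v, ⟨v1, v2, -⟩, a, ha, a1, a2, hx⟩ := hx
      have e1 := hle v1
      have e2 := hle v2
      rw [add_mul] at e2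
      exact ⟨a, ⟨by omega, by omega, ha⟩, hx⟩) (hC.many _ (hst u hu)))
  have hJs : ∀ i ∈ J, i < 2 * (2 ^ (h * k) * (h * k * (h * k) + 1)) ∧ τ i ≤ m' ∧
      τ i * β + μ ≤ t i + o ∧ t i + o + μ < τ i * β + β ∧ γ i 0 ∈ S' (τ i) := by
    intro i hi
    obtain ⟨e1, e2⟩ := Finset.mem_filter.1 hi
    rw [Finset.mem_range] at e1
    have e3 := hτ i
    have e4 := hC.att i e1
    rw [e2] at e3
    refine ⟨e1, ?_, e3.1, e3.2, t i, e4.1, by omega, by omega, e4.2⟩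
    by_contra e5
    have := comb_mul β (not_le.1 e5)
    omega
  have hD : ∀ i, ∃ D : Finset (Fin (h * k)), i ∈ J → h ≤ D.card ∧
      ∀ a ∈ D, ∀ b ∈ D, (w a (τ i))⁻¹ * w b (τ i) ∈ C i := by
    intro i
    by_cases hi : i ∈ J
    · obtain ⟨e1, e2, -⟩ := hJs i hi
      obtain ⟨D, hD⟩ := comb_coset (hC.idx i e1).2.1 (hC.idx i e1).2.2 (fun a => w a (τ i))
        fun a => (hw a _ e2).1
      exact ⟨D, fun _ => hD⟩
    · exact ⟨∅, fun e => absurd e hi⟩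
  choose Ds hDs using hD
  obtain ⟨D, -, hJ'⟩ := Finset.exists_le_card_fiber_of_mul_le_card_of_maps_to
    (n := h * k * (h * k) + 1) (s := J) (t := Finset.univ) (f := Ds) (fun _ _ => Finset.mem_univ _)
    Finset.univ_nonempty (by simpa using hJ)
  obtain ⟨ι, hι⟩ := Function.Embedding.exists_of_card_le_finset
    (α := Fin (h * k) × Fin (h * k)) (s := J.filter fun i => Ds i = D) (by simp; omega)
  have hιJ : ∀ q, ι q ∈ J ∧ Ds (ι q) = D := fun q => Finset.mem_filter.1 (hι ⟨q, rfl⟩)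
  obtain ⟨i₀, hi₀⟩ := Finset.card_pos.1 (lt_of_lt_of_le (Nat.succ_pos _) hJ')
  rw [Finset.mem_filter] at hi₀
  refine comb_fat D T (fun a b => {z | ∃ e, (e = a ∨ e = b) ∧ ∃ y, z = w e (τ (ι (a, b))) y ∧
      (y ∈ H (ι (a, b)) ∨ ∃ l ≤ c, y = γ (ι (a, b)) l)}) (hi₀.2 ▸ (hDs i₀ hi₀.1).1)
    (fun a => ⟨?_, hTc a⟩) (fun a ha b hb => ?_) hTf (fun a b a' b' hne => ?_)
    (fun a b e ha hb => ?_)
  · obtain ⟨x, hx⟩ := hne 0 (Nat.zero_le _)
    exact ⟨_, (hw a 0 (Nat.zero_le _)).2 x hx⟩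
  · obtain ⟨hi, hi'⟩ := hιJ (a, b)
    generalize ι (a, b) = i at hi hi' ⊢
    obtain ⟨e1, e2, -, -, e3⟩ := hJs i hi
    refine ⟨_, (hw a _ e2).2 _ e3, _, (hw b _ e2).2 _ e3, ?_⟩
    have key : ∀ e, e = a ∨ e = b → Lk G {z | ∃ e, (e = a ∨ e = b) ∧ ∃ y, z = w e (τ i) y ∧
        (y ∈ H i ∨ ∃ l ≤ c, y = γ i l)} (w e (τ i) (γ i 0)) (w e (τ i) (γ i c)) := fun e he =>
      Lk.seq (g := fun l => w e (τ i) (γ i l)) ⟨e, he, _, rfl, Or.inr ⟨0, Nat.zero_le _, rfl⟩⟩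
        fun l hl => Lk.near (by rw [dist_iso]; exact hC.step i e1 l hl)
          ⟨e, he, _, rfl, Or.inr ⟨l, hl.le, rfl⟩⟩ ⟨e, he, _, rfl, Or.inr ⟨l + 1, hl, rfl⟩⟩
    have h1 := ((hC.hub i e1).1 _ ((hC.hub i e1).2 1 (C i).one_mem) _
      ((hC.hub i e1).2 _ ((hDs i hi).2 a (hi' ▸ ha) b (hi' ▸ hb)))).map (w a (τ i))
    refine (key a (Or.inl rfl)).trans (Lk.trans ?_ (key b (Or.inr rfl)).symm)
    refine Lk.mono (by simpa using h1) ?_
    rintro _ ⟨y, hy, rfl⟩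
    exact ⟨a, Or.inl rfl, y, rfl, Or.inl hy⟩
  · rintro _ ⟨e, -, x, rfl, hx⟩ _ ⟨e', -, y, rfl, hy⟩
    obtain ⟨e1, e2, -⟩ := hJs _ (hιJ (a, b)).1
    obtain ⟨e3, e4, -⟩ := hJs _ (hιJ (a', b')).1
    rw [← comb_shift]
    refine hC.sep _ e1 _ e3 (ι.injective.ne hne) _
      (W.mul_mem (W.inv_mem (hw e _ e2).1) (hw e' _ e4).1) x (hx.imp id ?_) y (hy.imp id ?_)
    all_goals rintro ⟨l, hl, rfl⟩; exact ⟨l, hl, rfl⟩
  · rintro _ ⟨e', he', x, rfl, hx⟩ z hz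
    obtain ⟨hi, -⟩ := hιJ (a, b)
    generalize ι (a, b) = i at hi hx ⊢
    obtain ⟨e1, e2, e3, e4, e5⟩ := hJs i hi
    have hee : e' ≠ e := by rintro rfl; exact he'.elim ha hb
    have hg := (hw e' _ e2).1
    obtain ⟨hrP, hz'⟩ := hr _ e2
    generalize hg' : w e' (τ i) = g at hg ⊢
    have near : ∀ g' ∈ W, ∀ a' ≤ m, ∀ y ∈ S a', (x ∈ H i → c ≤ 2 * G.dist (g x) (g' y)) ∧
        ∀ l ≤ c, l ≤ 2 * G.dist (g (γ i l)) (g' y) := fun g' hg' a' ha' y hy => by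
      have e := W.mul_mem (W.inv_mem hg) hg'
      simp only [← comb_shift]
      exact ⟨fun hx => hC.off i e1 x hx a' ha' _ e y hy,
        fun l hl => hC.away i e1 l hl a' ha' _ e y hy⟩
    have hlen : ∀ l ≤ c, G.dist (g (γ i 0)) (g (γ i l)) ≤ l := fun l hl => by
      have := dist_seq_le (c := 1) (hC.step i e1) 0 l (by omega)
      rw [dist_iso]
      simpa using this
    rcases hz' e z hz with ⟨u, -, hu, g', hg', y, ⟨a', ha', a1, a2, hy⟩, hd⟩ |
      ⟨⟨g', hg', y, ⟨a', ha', -, -, hy⟩, hd⟩, hfar⟩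
    · have h1 := tri (G := G) (g x) z (g' y)
      obtain ⟨n1, n2⟩ := near g' hg' a' ha' y hy
      rcases hx with hx | ⟨l, hl, rfl⟩
      · have := n1 hx; omega
      have h2 := n2 l hl
      have h3 := hlen l hl
      have h4 := tri (G := G) (g (γ i 0)) (g (γ i l)) (g' y)
      have h5 := hC.att i e1
      rcases lt_or_gt_of_ne hu with hu | hu
      · have h6 := comb_mul β hu
        have h7 := hC.far a' (t i) (by omega) h5.1 _ (W.mul_mem (W.inv_mem hg') hg) y hy _ h5.2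
        rw [comb_shift, dcomm] at h7
        omega
      · have h6 := comb_mul β hu
        have h7 := hC.far (t i) a' (by omega) ha' _ (W.mul_mem (W.inv_mem hg) hg') _ h5.2 y hy
        rw [comb_shift] at h7
        omega
    · have h1 := tri (G := G) (g x) z (g' y)
      obtain ⟨n1, n2⟩ := near g' hg' a' ha' y hy
      rcases hx with hx | ⟨l, hl, rfl⟩
      · have := n1 hx; omega
      have h2 := n2 l hl
      have h3 := hlen l hl
      have h4 := hfar e' hee _ e5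
      have h5 := tri (G := G) (g (γ i 0)) (g (γ i l)) z
      rw [‹w e' (τ i) = g›, dcomm] at h4
      omega

end Pool.Agent.MP_77f003_co.H49
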