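import Pool.Agent.MP_77f003_co.H49.USpec

/-!
Dense finite graphs have complete minors.
-/

namespace Pool.Agent.MP_77f003_co.H49

open SimpleGraph Finset

variable {ι : Type}

open Classical in
/-- The ordered adjacent pairs inside `U`. -/
noncomputable def maderE (H : SimpleGraph ι) (U : Finset ι) : Finset (ι × ι) :=
  (U ×ˢ U).filter fun p => H.Adj p.1 p.2

theorem mader_mem {H : SimpleGraph ι} {U : Finset ι} {p : ι × ι} :
    p ∈ maderE H U ↔ p.1 ∈ U ∧ p.2 ∈ U ∧ H.Adj p.1 p.2 := by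
  simp [maderE, and_assoc]

/-- A complete minor inside `U`. -/
def maderM (H : SimpleGraph ι) (U : Finset ι) (h : ℕ) : Prop :=
  ∃ B : Fin h → Set ι, (∀ a, B a ⊆ U ∧ (B a).Nonempty ∧ Conn H (B a)) ∧
    ∀ a b, a ≠ b → Disjoint (B a) (B b) ∧ ∃ x ∈ B a, ∃ y ∈ B b, H.Adj x y

/-- The edges at `y` are copied to `x`. -/
def maderC (H : SimpleGraph ι) (x y : ι) : SimpleGraph ι where
  Adj a b := a ≠ b ∧ (H.Adj a b ∨ a = x ∧ H.Adj y b ∨ b = x ∧ H.Adj a y)
  symm := ⟨fun _ _ h => ⟨h.1.symm, h.2.elim (fun e => Or.inl e.symm) fun e => e.elim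
    (fun e => Or.inr (Or.inr ⟨e.1, e.2.symm⟩)) fun e => Or.inr (Or.inl ⟨e.1, e.2.symm⟩)⟩⟩
  loopless := ⟨fun _ h => h.1 rfl⟩

theorem mader_lk {H : SimpleGraph ι} {x y : ι} (hxy : H.Adj x y) {S : Set ι} {a b : ι}
    (h : Lk (maderC H x y) S a b) : Lk H (S ∪ {z | z = y ∧ x ∈ S}) a b := by
  obtain ⟨p, hp⟩ := h
  induction p with
  | nil => exact Lk.refl (Or.inl (hp _ (by simp)))
  | @cons a b c hab q ih =>
    have ha : a ∈ S := hp _ (by simp)
    have hb : b ∈ S := hp _ (by simp)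
    refine Lk.trans ?_ (ih fun z hz => hp z (by simp [hz]))
    rcases hab.2 with e | ⟨rfl, e⟩ | ⟨rfl, e⟩
    · exact Lk.adj e (Or.inl ha) (Or.inl hb)
    · exact (Lk.adj hxy (Or.inl ha) (Or.inr ⟨rfl, ha⟩)).trans
        (Lk.adj e (Or.inr ⟨rfl, ha⟩) (Or.inl hb))
    · exact (Lk.adj e (Or.inl ha) (Or.inr ⟨rfl, hb⟩)).trans
        (Lk.adj hxy.symm (Or.inr ⟨rfl, hb⟩) (Or.inl hb))

theorem mader_lift [DecidableEq ι] {H : SimpleGraph ι} {x y : ι} (hxy : H.Adj x y) {U : Finset ι}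
    (hy : y ∈ U) {h : ℕ} (hm : maderM (maderC H x y) (U.erase y) h) : maderM H U h := by
  obtain ⟨B, h1, h2⟩ := hm
  have hyB : ∀ a, y ∉ B a := fun a e => by simpa using (h1 a).1 e
  refine ⟨fun a => B a ∪ {z | z = y ∧ x ∈ B a}, fun a => ⟨?_, (h1 a).2.1.inl, ?_⟩,
    fun a b hab => ⟨?_, ?_⟩⟩
  · rintro z (hz | ⟨rfl, -⟩)
    exacts [mem_of_mem_erase ((h1 a).1 hz), hy]
  · have key : ∀ z ∈ B a ∪ {z | z = y ∧ x ∈ B a}, ∃ z' ∈ B a,
        Lk H (B a ∪ {z | z = y ∧ x ∈ B a}) z z' := by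
      rintro z (hz | ⟨rfl, hx⟩)
      exacts [⟨z, hz, Lk.refl (Or.inl hz)⟩, ⟨x, hx, Lk.adj hxy.symm (Or.inr ⟨rfl, hx⟩) (Or.inl hx)⟩]
    intro z hz w hw
    obtain ⟨z', hz', e1⟩ := key z hz
    obtain ⟨w', hw', e2⟩ := key w hw
    exact (e1.trans (mader_lk hxy ((h1 a).2.2 z' hz' w' hw'))).trans e2.symm
  · have hd := Set.disjoint_left.1 (h2 a b hab).1
    rw [Set.disjoint_left]
    rintro z (hz | ⟨rfl, hx⟩) (hz' | ⟨e, hx'⟩)
    exacts [hd hz hz', hyB a (e ▸ hz), hyB b hz', hd hx hx']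
  · obtain ⟨u, hu, v, hv, -, e | ⟨rfl, e⟩ | ⟨rfl, e⟩⟩ := (h2 a b hab).2
    exacts [⟨u, Or.inl hu, v, Or.inl hv, e⟩, ⟨y, Or.inr ⟨rfl, hu⟩, v, Or.inl hv, e⟩,
      ⟨u, Or.inl hu, y, Or.inr ⟨rfl, hv⟩, e⟩]

open Classical in
theorem mader_count {H : SimpleGraph ι} {x y : ι} (hxy : H.Adj x y) {U : Finset ι} (hx : x ∈ U) :
    #(maderE H U) ≤ #(maderE (maderC H x y) (U.erase y)) +
      2 * (#{z ∈ U | H.Adj x z ∧ H.Adj y z} + 1) := by
  set Cm := insert x {z ∈ U | H.Adj x z ∧ H.Adj y z} with hCm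
  set X : Finset (ι × ι) := Cm.image (fun z => (y, z)) ∪ Cm.image fun z => (z, y) with hX
  have h1 : #X ≤ 2 * (#{z ∈ U | H.Adj x z ∧ H.Adj y z} + 1) := by
    have e0 : #Cm ≤ _ := card_insert_le x {z ∈ U | H.Adj x z ∧ H.Adj y z}
    have e1 := card_image_le (s := Cm) (f := fun z => (y, z))
    have e2 := card_image_le (s := Cm) (f := fun z => (z, y))
    have e3 : #X ≤ _ := card_union_le (Cm.image fun z => (y, z)) (Cm.image fun z => (z, y))
    omega
  have hmem : ∀ a b, (a, b) ∈ maderE H U \ X → a ∈ U ∧ b ∈ U ∧ H.Adj a b ∧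
      (a = y → b ≠ x ∧ ¬ H.Adj x b) ∧ (b = y → a ≠ x ∧ ¬ H.Adj a x) := by
    intro a b hab
    obtain ⟨e1, e2⟩ := mem_sdiff.1 hab
    obtain ⟨ha, hb, e3⟩ := mader_mem.1 e1
    simp only [hX, hCm, mem_union, mem_image, mem_insert, mem_filter, Prod.mk.injEq, not_or,
      not_exists, not_and] at e2
    refine ⟨ha, hb, e3, ?_, ?_⟩
    · rintro rfl
      exact ⟨fun e => e2.1 b (Or.inl e) rfl rfl, fun e => e2.1 b (Or.inr ⟨hb, e, e3⟩) rfl rfl⟩
    · rintro rfl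
      exact ⟨fun e => e2.2 a (Or.inl e) rfl rfl,
        fun e => e2.2 a (Or.inr ⟨ha, e.symm, e3.symm⟩) rfl rfl⟩
  have hne := hxy.ne
  have h2 : #(maderE H U \ X) ≤ #(maderE (maderC H x y) (U.erase y)) := by
    refine card_le_card_of_injOn
      (fun p => (if p.1 = y then x else p.1, if p.2 = y then x else p.2)) ?_ ?_
    · rintro ⟨a, b⟩ hab
      obtain ⟨ha, hb, e, e1, e2⟩ := hmem a b hab
      have e3 := e.ne
      simp only [mem_coe, mader_mem, mem_erase, maderC]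
      grind
    · rintro ⟨a, b⟩ hab ⟨a', b'⟩ hab' e
      obtain ⟨-, -, e0, e1, e2⟩ := hmem a b hab
      obtain ⟨-, -, e0', e1', e2'⟩ := hmem a' b' hab'
      have e3 := e0.ne
      have e4 := e0'.ne
      simp only [Prod.mk.injEq] at e ⊢
      grind
  have := le_card_sdiff X (maderE H U)
  omega

theorem mader_main (h : ℕ) : ∀ (n : ℕ) (H : SimpleGraph ι) (U : Finset ι), #U = n → U.Nonempty →
    2 ^ h * #U ≤ #(maderE H U) → maderM H U h := by
  classical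
  induction h with
  | zero => exact fun _ _ _ _ _ _ => ⟨fun a => a.elim0, fun a => a.elim0, fun a => a.elim0⟩
  | succ h ih =>
    intro n
    induction n with
    | zero => intro H U hU hne; exact absurd hne.card_pos (by omega)
    | succ n ihn =>
      intro H U hU hne he
      by_cases hc : ∃ x ∈ U, ∃ y ∈ U, H.Adj x y ∧ #{z ∈ U | H.Adj x z ∧ H.Adj y z} < 2 ^ h
      · obtain ⟨x, hx, y, hy, hxy, hc⟩ := hc
        have h1 := mader_count hxy hx
        have h2 : #(U.erase y) = n := by rw [card_erase_of_mem hy]; omega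
        refine mader_lift hxy hy (ihn _ _ h2 ⟨x, mem_erase.2 ⟨hxy.ne, hx⟩⟩ ?_)
        rw [hU, mul_add, pow_succ] at he
        rw [h2, pow_succ]
        omega
      push Not at hc
      obtain ⟨⟨x, y⟩, hp⟩ := card_pos.1 (lt_of_lt_of_le (by have := hne.card_pos; positivity) he)
      obtain ⟨hx, hy, hxy⟩ := mader_mem.1 hp
      obtain ⟨B, h1, h2⟩ := ih _ H {z ∈ U | H.Adj x z} rfl ⟨y, mem_filter.2 ⟨hy, hxy⟩⟩ (by
        refine mul_card_image_le_card_of_maps_to (f := Prod.fst)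
          (fun p hp => (mader_mem.1 hp).1) _ fun a ha => ?_
        obtain ⟨e1, e2⟩ := mem_filter.1 ha
        refine (hc x hx a e1 e2).trans (card_le_card_of_injOn (fun z => (a, z)) ?_
          fun _ _ _ _ e => (Prod.mk.inj e).2)
        intro z hz
        obtain ⟨e3, e4, e5⟩ := mem_filter.1 hz
        exact mem_filter.2 ⟨mader_mem.2 ⟨ha, mem_filter.2 ⟨e3, e4⟩, e5⟩, rfl⟩)
      have h3 : ∀ a, ∀ z ∈ B a, z ∈ U ∧ H.Adj x z := fun a z hz => mem_filter.1 ((h1 a).1 hz)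
      have h4 : ∀ a, Disjoint {x} (B a) ∧ ∃ u ∈ ({x} : Set ι), ∃ v ∈ B a, H.Adj u v := fun a =>
        ⟨Set.disjoint_singleton_left.2 fun e => (h3 a x e).2.ne rfl, x, rfl, _,
          (h1 a).2.1.some_mem, (h3 a _ (h1 a).2.1.some_mem).2⟩
      refine ⟨Fin.cons {x} B, Fin.forall_fin_succ.2 ⟨⟨by simpa using hx, ⟨x, rfl⟩, ?_⟩,
        fun a => ⟨fun z hz => (h3 a z hz).1, (h1 a).2⟩⟩, fun a b => ?_⟩
      · rintro _ rfl _ rfl
        exact Lk.refl rfl
      · refine Fin.cases ?_ (fun a => ?_) a <;> refine Fin.cases ?_ (fun b => ?_) b <;> intro hab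
        · exact absurd rfl hab
        · exact h4 b
        · obtain ⟨e, u, hu, v, hv, e'⟩ := h4 a
          exact ⟨e.symm, v, hv, u, hu, e'.symm⟩
        · exact h2 a b fun e => hab (e ▸ rfl)

theorem maderSpec : MaderSpec := by
  intro h ι _ _ H he
  have := Fintype.ofFinite ι
  obtain ⟨B, h1, h2⟩ := mader_main h _ H univ rfl univ_nonempty (by
    rw [card_univ, ← Nat.card_eq_fintype_card, ← Set.ncard_coe_finset]
    refine he.trans (le_trans (Set.ncard_le_ncard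
      (t := Sym2.mk.uncurry '' (maderE H univ : Set _)) ?_)
      (Set.ncard_image_le (Finset.finite_toSet _)))
    intro e
    induction e using Sym2.ind with
    | _ a b => exact fun hab => ⟨(a, b), mader_mem.2 ⟨mem_univ _, mem_univ _, hab⟩, rfl⟩)
  exact ⟨B, fun a => (h1 a).2, h2⟩

end Pool.Agent.MP_77f003_co.H49
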