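import Pool.Agent.MP_77f003_co.H49.USpec

/-!
Many legs that stay far from each other give a comb: one leg is the spine, and the other legs are
joined to it one after the other, each at higher levels than the earlier ones and away from the
legs still to be joined.
-/

namespace Pool.Agent.MP_77f003_co.H49

open SimpleGraph

variable {V : Type} {G : SimpleGraph V} {W : Subgroup (G ≃g G)}

/-- The distance to the translates of a ray. -/
noncomputable def survR (G : SimpleGraph V) (W : Subgroup (G ≃g G)) (α : ℕ → V) (x : V) : ℕ :=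
  sInf {d | ∃ w ∈ W, ∃ t, G.dist x (w (α t)) = d}

theorem survR_le {α : ℕ → V} {w : G ≃g G} (hw : w ∈ W) (x : V) (t : ℕ) :
    survR G W α x ≤ G.dist x (w (α t)) := Nat.sInf_le ⟨w, hw, t, rfl⟩

theorem survR_ex (α : ℕ → V) (x : V) : ∃ w ∈ W, ∃ t, G.dist x (w (α t)) = survR G W α x :=
  Nat.sInf_mem (s := {d | ∃ w ∈ W, ∃ t, G.dist x (w (α t)) = d}) ⟨_, 1, W.one_mem, 0, rfl⟩

theorem survR_zero {α : ℕ → V} {w : G ≃g G} (hw : w ∈ W) (t : ℕ) : survR G W α (w (α t)) = 0 := by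
  simpa using survR_le (α := α) hw (w (α t)) t

theorem surv_greedy {D : Type} [Inhabited D] (Sep : D → D → Prop) (hs : ∀ a b, Sep a b → Sep b a)
    (P : Finset ℕ → ℕ → D → Prop) (A₀ : Finset ℕ)
    (step : ∀ A ⊆ A₀, A.Nonempty → ∀ r, ∃ d, ∃ j ∈ A, ∃ r', P A r d ∧
      ∀ d', P (A.erase j) r' d' → P A r d' ∧ Sep d d') (s : ℕ) :
    ∀ A ⊆ A₀, s ≤ A.card → ∀ r, ∃ F : ℕ → D, (∀ a < s, P A r (F a)) ∧
      ∀ a < s, ∀ b < s, a ≠ b → Sep (F a) (F b) := by
  induction s with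
  | zero => exact fun _ _ _ _ => ⟨default, by simp, by simp⟩
  | succ s ih =>
    intro A hA hc r
    obtain ⟨d, j, hj, r', h1, h2⟩ := step A hA (Finset.card_pos.1 (by omega)) r
    obtain ⟨F, h3, h4⟩ := ih (A.erase j) ((A.erase_subset j).trans hA)
      (by rw [Finset.card_erase_of_mem hj]; omega) r'
    refine ⟨fun a => if a = s then d else F a, fun a ha => ?_, fun a ha b hb hab => ?_⟩
    · by_cases e : a = s
      · simpa [e] using h1
      · simpa [e] using (h2 _ (h3 a (by omega))).1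
    · by_cases e : a = s
      · have e' : b ≠ s := fun e' => hab (e.trans e'.symm)
        simpa [e, e'] using (h2 _ (h3 b (by omega))).2
      · by_cases e' : b = s
        · simpa [e, e'] using hs _ _ (h2 _ (h3 a (by omega))).2
        · simpa [e, e'] using h4 a (by omega) b (by omega) hab

variable [Fact G.Connected]

theorem survR_lip (α : ℕ → V) (x y : V) : survR G W α x ≤ survR G W α y + G.dist x y := by
  obtain ⟨w, hw, t, e⟩ := survR_ex (W := W) α y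
  have h1 := survR_le (α := α) hw x t
  have h2 := tri (G := G) x y (w (α t))
  omega

theorem survR_inv (α : ℕ → V) {g : G ≃g G} (hg : g ∈ W) (x : V) :
    survR G W α (g x) = survR G W α x := by
  have key : ∀ g ∈ W, ∀ x, survR G W α (g x) ≤ survR G W α x := by
    intro g hg x
    obtain ⟨w, hw, t, e⟩ := survR_ex (W := W) α x
    exact (survR_le (W.mul_mem hg hw) (g x) t).trans ((dist_iso g x (w (α t))).trans e).le
  refine le_antisymm (key g hg x) ?_
  simpa using key g⁻¹ (W.inv_mem hg) (g x)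

theorem surv_many {P e T : ℕ} {S : Set V} {y : V} (hS : ∀ x ∈ S, G.dist y x ≤ e)
    (h : Many W (Cl G W (P + 2 * e) {y}) T) : Many W (Cl G W P S) T := by
  have hle : Cl G W P S ≤ Cl G W (P + 2 * e) {y} := by
    refine Subgroup.closure_mono ?_
    rintro w ⟨hw, x, hx, z, hz, hd⟩
    refine ⟨hw, y, rfl, y, rfl, ?_⟩
    have h1 := tri (G := G) y x (w y)
    have h2 := tri (G := G) x (w z) (w y)
    have h3 := hS x hx
    have h4 := hS z hz
    rw [dist_iso, dcomm z] at h2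
    omega
  have hd := Subgroup.relIndex_dvd_of_le_left W hle
  by_cases h0 : (Cl G W P S).relIndex W = 0
  · exact Or.inl h0
  · have h1 := Nat.le_of_dvd (Nat.pos_of_ne_zero h0) hd
    rcases h with h | h
    · rw [h] at hd; exact absurd (zero_dvd_iff.1 hd) h0
    · exact Or.inr (h.trans h1)

variable {f : V → ℕ} {N D : ℕ} {Z : ℕ → Set V} {lam : ℕ → ℕ → V}

theorem surv_ray (hL : Legs G W f N D Z lam) {i : ℕ} (hi : i < N) (a b : ℕ) :
    G.dist (lam i a) (lam i b) ≤ (a - b) + (b - a) := by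
  have h : ∀ t, G.dist (lam i t) (lam i (t + 1)) ≤ 1 := fun t => (dist_adj (hL.step i hi t)).le
  rcases le_total a b with h1 | h1
  · have := dist_lazy h h1; omega
  · have := dist_lazy h h1; rw [dcomm] at this; omega

theorem surv_sum (hL : Legs G W f N D Z lam) {i j : ℕ} (hi : i < N) (hj : j < N)
    (h : ∀ t, ∀ w ∈ W, D < G.dist (lam i t) (w (lam j t))) (x : V) :
    D < 2 * (survR G W (lam i) x + survR G W (lam j) x) := by
  obtain ⟨w, hw, t, e⟩ := survR_ex (W := W) (lam i) x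
  obtain ⟨w', hw', t', e'⟩ := survR_ex (W := W) (lam j) x
  have h1 := h t (w⁻¹ * w') (W.mul_mem (W.inv_mem hw) hw')
  have h2 : G.dist (lam i t) ((w⁻¹ * w') (lam j t)) = G.dist (w (lam i t)) (w' (lam j t)) := by
    rw [← dist_iso w]; simp
  have h3 := tri (G := G) (w (lam i t)) (w' (lam j t')) (w' (lam j t))
  have h4 := tri (G := G) (w (lam i t)) x (w' (lam j t'))
  have h5 := surv_ray hL hj t' t
  have h6 := hL.lip (w (lam i t)) (w' (lam j t'))
  have h7 := hL.lip (w' (lam j t')) (w (lam i t))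
  rw [hL.inv w hw, hL.inv w' hw', hL.lev i hi, hL.lev j hj] at h6 h7
  rw [dcomm] at h7
  rw [dist_iso w'] at h3
  rw [dcomm _ x] at h4
  omega

theorem surv_hub (hL : Legs G W f N D Z lam) {i j : ℕ} (hi : i < N) (hj : j < N) (hij : j ≠ i)
    {z : V} (hz : z ∈ Z j) : D ≤ 2 * survR G W (lam i) z := by
  obtain ⟨w, hw, t, e⟩ := survR_ex (W := W) (lam i) z
  have h1 := hL.zfar j hj i hi hij z hz (w (lam i 0)) ((hL.zinv i hi hw _).2 (hL.start i hi))
  have h2 := tri (G := G) z (w (lam i t)) (w (lam i 0))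
  have h3 := surv_ray hL hi t 0
  have h4 := hL.lip (w (lam i t)) z
  rw [hL.inv w hw, hL.lev i hi, hL.zlev j hj z hz, dcomm] at h4
  rw [dist_iso w] at h2
  omega

/-- Some leg of `A` is joined to the spine above level `r`, away from the other legs of `A`. -/
theorem surv_link (hL : Legs G W f N D Z lam) {I : Finset ℕ} (hI : ∀ i ∈ I, i < N)
    (h : ∀ i ∈ I, ∀ j ∈ I, i ≠ j → ∀ t, ∀ w ∈ W, D < G.dist (lam i t) (w (lam j t)))
    {i c K : ℕ} (hi : i ∈ I) (hD : 2 * (c + 2 * K + 1) ≤ D) {A : Finset ℕ} (hA : A ⊆ I.erase i)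
    (hne : A.Nonempty) (r : ℕ) : ∃ j ∈ A, ∃ g ∈ W, ∃ t t₀ p, G.dist (lam i t₀) p = c ∧
      survR G W (lam i) p = c ∧ Lk G {z | r ≤ f z ∧ c ≤ survR G W (lam i) z ∧
        ∀ l ∈ A, l ≠ j → K ≤ survR G W (lam l) z} (g (lam j t)) p := by
  have hs : ∀ l ∈ A, ∀ x, D < 2 * (survR G W (lam i) x + survR G W (lam l) x) := fun l hl x =>
    have h1 := Finset.mem_erase.1 (hA hl)
    surv_sum hL (hI i hi) (hI l h1.2) (h i hi l h1.2 h1.1.symm) x
  obtain ⟨j₀, hj₀⟩ := hne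
  have z0 : ∀ l t, survR G W (lam l) (lam l t) = 0 := fun l t => survR_zero (w := 1) W.one_mem t
  obtain ⟨⟨q, p⟩, ⟨hq, hp, hqp⟩, hpS, h1⟩ := (hL.link j₀ (hI _ (Finset.mem_of_mem_erase (hA hj₀)))
    i (hI i hi) (r + K + 1) (r + K + 2) (by omega)).cross (A := {z | c < survR G W (lam i) z})
    (by have := hs j₀ hj₀ (lam j₀ (r + K + 2)); rw [z0] at this; show c < _; omega)
    (by show ¬ c < _; rw [z0]; omega)
  simp only [Set.mem_ofPred_eq, not_lt] at hq hp hqp hpS h1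
  have hpc : survR G W (lam i) p = c := by have := survR_lip (W := W) (lam i) q p; omega
  have h2 : Lk G {z | r + K + 1 < f z ∧ c ≤ survR G W (lam i) z} (lam j₀ (r + K + 2)) p :=
    Lk.trans (h1.mono fun z hz => ⟨hz.1, le_of_lt hz.2⟩)
      (Lk.near hqp ⟨h1.right.1, hq.le⟩ ⟨hpS, hpc.ge⟩)
  obtain ⟨y, ⟨v, ⟨j, hj, hv⟩, hvy⟩, h3⟩ := h2.exit (T := {z | ∃ l ∈ A, survR G W (lam l) z ≤ K})
    ⟨j₀, hj₀, by rw [z0]; omega⟩ (by rintro ⟨l, hl, h⟩; have := hs l hl p; omega)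
  obtain ⟨g, hg, t, e⟩ := survR_ex (W := W) (lam j) y
  have hy : survR G W (lam j) y ≤ K + 1 := by
    have := survR_lip (W := W) (lam j) y v
    rw [dcomm, dist_adj hvy] at this
    omega
  have h4 : Lk G {z | r ≤ f z ∧ c ≤ survR G W (lam i) z ∧
      ∀ l ∈ A, l ≠ j → K ≤ survR G W (lam l) z} (g (lam j t)) p := by
    refine Lk.trans (Lk.symm (Lk.geo fun z hz => ?_)) (h3.mono fun z hz => ⟨?_, hz.1.2, ?_⟩)
    · have a1 := survR_le (α := lam j) hg z t
      have a2 := hL.lip y z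
      have a3 : r + K + 1 < f y := h3.left.1.1
      have a4 := hs j hj z
      refine ⟨by omega, by omega, fun l hl hlj => ?_⟩
      have a5 := Finset.mem_of_mem_erase (hA hl)
      have a6 := Finset.mem_of_mem_erase (hA hj)
      have := surv_sum hL (hI l a5) (hI j a6) (h l a5 j a6 hlj) z
      omega
    · have : r + K + 1 < f z := hz.1.1
      omega
    · intro l hl _
      by_contra hc
      exact hz.2 ⟨l, hl, by omega⟩
  obtain ⟨w, hw, t₀, e₀⟩ := survR_ex (W := W) (lam i) p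
  have hw' := W.inv_mem hw
  refine ⟨j, hj, w⁻¹ * g, W.mul_mem hw' hg, t, t₀, w⁻¹ p, ?_, by rw [survR_inv _ hw', hpc],
    (h4.map w⁻¹).mono ?_⟩
  · rw [← dist_iso w, dcomm, ← hpc, ← e₀]; simp
  · rintro _ ⟨z, hz, rfl⟩
    exact ⟨by rw [hL.inv _ hw']; exact hz.1, by rw [survR_inv _ hw']; exact hz.2.1,
      fun l hl hlj => by rw [survR_inv _ hw']; exact hz.2.2 l hl hlj⟩

/-- A hub attached to the spine `lam i`, made of the leg `j` and of points above level `r`. -/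
structure SurvTooth (G : SimpleGraph V) (W : Subgroup (G ≃g G)) (f : V → ℕ) (Z : ℕ → Set V)
    (lam : ℕ → ℕ → V) (i c : ℕ) (A : Finset ℕ) (r : ℕ) (d : ℕ × (ℕ → V) × Set V) : Prop where
  att : d.2.1 0 = lam i d.1
  step : ∀ l < c, G.dist (d.2.1 l) (d.2.1 (l + 1)) ≤ 1
  away : ∀ l ≤ c, l ≤ survR G W (lam i) (d.2.1 l)
  conn : Conn G d.2.2
  hub : ∀ g ∈ W, g (d.2.1 c) ∈ d.2.2
  off : ∀ z ∈ d.2.2, c ≤ survR G W (lam i) z
  low : ∃ j ∈ A, ∀ y ∈ d.2.2 ∪ d.2.1 '' Set.Iic c, y ∈ Z j ∨ survR G W (lam j) y = 0 ∨ r ≤ f y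

theorem surv_step (hL : Legs G W f N D Z lam) {I : Finset ℕ} (hI : ∀ i ∈ I, i < N)
    (h : ∀ i ∈ I, ∀ j ∈ I, i ≠ j → ∀ t, ∀ w ∈ W, D < G.dist (lam i t) (w (lam j t)))
    {i c K : ℕ} (hi : i ∈ I) (hD : 2 * (c + 2 * K + 1) ≤ D) (A : Finset ℕ) (hA : A ⊆ I.erase i)
    (hne : A.Nonempty) (r : ℕ) : ∃ d, ∃ j ∈ A, ∃ r', SurvTooth G W f Z lam i c A r d ∧
      ∀ d', SurvTooth G W f Z lam i c (A.erase j) r' d' → SurvTooth G W f Z lam i c A r d' ∧
        ∀ w ∈ W, ∀ x ∈ d.2.2 ∪ d.2.1 '' Set.Iic c, ∀ y ∈ d'.2.2 ∪ d'.2.1 '' Set.Iic c,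
          K ≤ G.dist x (w y) := by
  obtain ⟨j, hj, g, hg, t, t₀, p, hd, hp, hlk⟩ := surv_link hL hI h hi hD hA hne (r + K + c)
  obtain ⟨P, hPf, hPS, hP0, hP⟩ := hlk.fin
  obtain ⟨γ, γ0, γ1, hγ⟩ := exists_geo' (G := G) (lam i t₀) p
  rw [hd] at γ1 hγ
  obtain ⟨b, hb⟩ := (hPf.image f).bddAbove
  have hb' : ∀ z ∈ P, f z ≤ b := fun z hz => hb ⟨z, hz, rfl⟩
  obtain ⟨hji, hjI⟩ := Finset.mem_erase.1 (hA hj)
  have hjN := hI j hjI
  have hpP : p ∈ P := (hP _ hP0).right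
  have htb : t ≤ b := by have := hb' _ hP0; rwa [hL.inv g hg, hL.lev j hjN] at this
  have hγp : ∀ l ≤ c, G.dist (γ l) p = c - l := fun l hl => by rw [← hγ l c hl le_rfl, γ1]
  have hγi : ∀ l ≤ c, survR G W (lam i) (γ l) ≤ c := fun l hl => by
    have h1 := survR_le (α := lam i) W.one_mem (γ l) t₀
    have h2 := hγ 0 l (Nat.zero_le _) hl
    rw [γ0, dcomm] at h2
    exact (h1.trans h2.le).trans (by omega)
  set Y : Set V := {y | ∃ k ≤ t, y = g (lam j k)} ∪ P with hY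
  set H : Set V := Z j ∪ {x | ∃ w ∈ W, ∃ y ∈ Y, x = w y} with hH
  have hYc : ∀ y ∈ Y, Lk G Y y (g (lam j 0)) := by
    have h1 : ∀ k ≤ t, Lk G Y (g (lam j k)) (g (lam j 0)) := fun k hk =>
      lk_lazy (w := fun k => g (lam j k))
        (fun n => by rw [dist_iso]; exact (dist_adj (hL.step j hjN n)).le)
        fun k' _ h2 => Or.inl ⟨k', by omega, rfl⟩
    rintro y (⟨k, hk, rfl⟩ | hy)
    · exact h1 k hk
    · exact (((hP y hy).trans (hP _ hP0).symm).mono Set.subset_union_right).trans (h1 t le_rfl)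
  have hHc : ∀ x ∈ H, Lk G H x (lam j 0) := by
    have h1 : ∀ x ∈ Z j, Lk G H x (lam j 0) := fun x hx =>
      (hL.zconn j hjN x hx _ (hL.start j hjN)).mono Set.subset_union_left
    rintro x (hx | ⟨w, hw, y, hy, rfl⟩)
    · exact h1 x hx
    · refine (((hYc y hy).map w).mono ?_).trans
        (h1 _ ((hL.zinv j hjN hw _).2 ((hL.zinv j hjN hg _).2 (hL.start j hjN))))
      rintro _ ⟨z, hz, rfl⟩
      exact Or.inr ⟨w, hw, z, hz, rfl⟩
  have hcase : ∀ x ∈ H ∪ γ '' Set.Iic c, f x ≤ b + c ∧ (x ∈ Z j ∨ survR G W (lam j) x = 0 ∨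
      r + K ≤ f x ∧ ∀ l ∈ A, l ≠ j → K ≤ survR G W (lam l) x) := by
    rintro x ((hx | ⟨w, hw, y, ⟨k, hk, rfl⟩ | hy, rfl⟩) | ⟨l, hl, rfl⟩)
    · exact ⟨by rw [hL.zlev j hjN x hx]; omega, Or.inl hx⟩
    · exact ⟨by rw [hL.inv w hw, hL.inv g hg, hL.lev j hjN]; omega,
        Or.inr (Or.inl (by rw [survR_inv _ hw, survR_zero hg]))⟩
    · have h1 := hb' y hy
      have h2 : r + K + c ≤ f y := (hPS hy).1
      rw [hL.inv w hw]
      exact ⟨by omega, Or.inr (Or.inr ⟨by omega, fun l hl hlj => by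
        rw [survR_inv _ hw]; exact (hPS hy).2.2 l hl hlj⟩)⟩
    · have h1 := hb' p hpP
      have h2 : r + K + c ≤ f p := (hPS hpP).1
      have h3 := hL.lip (γ l) p
      have h4 := hL.lip p (γ l)
      rw [dcomm] at h4
      rw [hγp l hl] at h3 h4
      refine ⟨by omega, Or.inr (Or.inr ⟨by omega, fun l' hl' _ => ?_⟩)⟩
      have h5 := Finset.mem_erase.1 (hA hl')
      have h6 := surv_sum hL (hI i hi) (hI l' h5.2) (h i hi l' h5.2 h5.1.symm) (γ l)
      have h7 := hγi l hl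
      omega
  refine ⟨(t₀, γ, H), j, hj, r + b + c + K, ⟨γ0, fun l hl => (hγ l (l + 1) (by omega) hl).le.trans
    (by omega), fun l hl => ?_, fun x hx y hy => (hHc x hx).trans (hHc y hy).symm,
    fun w hw => Or.inr ⟨w, hw, p, Or.inr hpP, by rw [← γ1]⟩, ?_, j, hj, fun y hy => ?_⟩,
    fun d' hd' => ?_⟩
  · have h1 := survR_lip (W := W) (lam i) p (γ l)
    rw [dcomm, hγp l hl] at h1
    show l ≤ survR G W (lam i) (γ l)
    omega
  · rintro x (hx | ⟨w, hw, y, ⟨k, hk, rfl⟩ | hy, rfl⟩)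
    · have := surv_hub hL (hI i hi) hjN hji hx; omega
    · have := surv_sum hL (hI i hi) hjN (h i hi j hjI hji.symm) (g (lam j k))
      rw [survR_zero hg] at this
      rw [survR_inv _ hw]; omega
    · rw [survR_inv _ hw]; exact (hPS hy).2.1
  · rcases (hcase y hy).2 with h1 | h1 | h1
    exacts [Or.inl h1, Or.inr (Or.inl h1), Or.inr (Or.inr (by omega))]
  obtain ⟨l, hl, hlow⟩ := hd'.low
  obtain ⟨hlj, hlA⟩ := Finset.mem_erase.1 hl
  have hlI := Finset.mem_of_mem_erase (hA hlA)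
  refine ⟨⟨hd'.att, hd'.step, hd'.away, hd'.conn, hd'.hub, hd'.off, l, hlA, fun y hy => ?_⟩,
    fun w hw x hx y hy => ?_⟩
  · rcases hlow y hy with h1 | h1 | h1
    exacts [Or.inl h1, Or.inr (Or.inl h1), Or.inr (Or.inr (by omega))]
  obtain ⟨h1, h2⟩ := hcase x hx
  rcases hlow y hy with h3 | h3 | h3
  · have h4 : w y ∈ Z l := (hL.zinv l (hI l hlI) hw _).2 h3
    rcases h2 with h2 | h2 | h2
    · have := hL.zfar j hjN l (hI l hlI) hlj.symm x h2 _ h4; omega
    · have h5 := surv_hub hL hjN (hI l hlI) hlj h4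
      have h6 := survR_lip (W := W) (lam j) (w y) x
      rw [dcomm] at h6
      omega
    · have h5 := hL.lip x (w y)
      rw [hL.zlev l (hI l hlI) _ h4] at h5
      omega
  · have h4 := survR_lip (W := W) (lam l) x (w y)
    rw [survR_inv _ hw, h3] at h4
    rcases h2 with h2 | h2 | h2
    · have := surv_hub hL (hI l hlI) hjN hlj.symm h2; omega
    · have := surv_sum hL hjN (hI l hlI) (h j hjI l hlI hlj.symm) x; omega
    · have := h2.2 l hlA hlj; omega
  · have h4 := hL.lip (w y) x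
    rw [hL.inv w hw, dcomm] at h4
    omega

theorem survSpec (hC : CombSpec) : SurvSpec := by
  intro K h
  obtain ⟨c, ω, P, T, s, hc⟩ := hC K h 1
  refine ⟨s + 1, 2 * (c + 2 * K + 1), P + 2 * (ω + 1), T, ?_⟩
  intro V G _ W f N Z lam hB hL I hI hn hd
  obtain ⟨i, hi⟩ := Finset.card_pos.1 (by omega : 0 < I.card)
  have hiN := hI i hi
  have : Inhabited (ℕ × (ℕ → V) × Set V) := ⟨0, lam i, ∅⟩
  obtain ⟨F, h1, h2⟩ := surv_greedy (fun d d' : ℕ × (ℕ → V) × Set V => ∀ w ∈ W,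
    ∀ x ∈ d.2.2 ∪ d.2.1 '' Set.Iic c, ∀ y ∈ d'.2.2 ∪ d'.2.1 '' Set.Iic c, K ≤ G.dist x (w y))
    (fun a b hab w hw x hx y hy => by
      have := hab w⁻¹ (W.inv_mem hw) y hy x hx
      rw [← dist_iso w, dcomm] at this
      simpa using this)
    (SurvTooth G W f Z lam i c) (I.erase i) (surv_step hL hI hd hi le_rfl) s _ subset_rfl
    (by rw [Finset.card_erase_of_mem hi]; omega) 0
  have hS : ∀ a, ∀ x ∈ ({lam i a, lam i (a + 1)} : Set V), ∃ t, a ≤ t ∧ t ≤ a + 1 ∧ x = lam i t := by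
    rintro a x (rfl | rfl)
    exacts [⟨a, le_rfl, by omega, rfl⟩, ⟨a + 1, by omega, le_rfl, rfl⟩]
  refine hc G W (fun a => {lam i a, lam i (a + 1)}) (∑ a ∈ Finset.range s, (F a).1)
    (fun a => (F a).1) (fun a => (F a).2.1) (fun a => (F a).2.2) (fun _ => W)
    ⟨fun a _ => ⟨⟨_, Or.inl rfl⟩, fun x hx y hy => Lk.near ?_ hx hy⟩,
      fun a _ => ⟨lam i (a + 1), Or.inr rfl, Or.inl rfl⟩, fun a b hab _ w hw x hx y hy => ?_,
      fun a _ => surv_many (fun x hx => ?_) (hB (lam i a)),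
      fun a ha => ⟨Finset.single_le_sum (f := fun a => (F a).1) (fun _ _ => Nat.zero_le _)
        (Finset.mem_range.2 ha), Or.inl (h1 a ha).att⟩,
      fun a ha => (h1 a ha).step, fun a ha l hl b _ w hw x hx => ?_,
      fun a _ => ⟨le_rfl, by simp, by simp⟩, fun a ha => ⟨(h1 a ha).conn, (h1 a ha).hub⟩,
      fun a ha z hz b _ w hw x hx => ?_, h2⟩
  · obtain ⟨t, _, _, rfl⟩ := hS a x hx
    obtain ⟨t', _, _, rfl⟩ := hS a y hy
    have := surv_ray hL hiN t t'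
    omega
  · obtain ⟨t, _, _, rfl⟩ := hS a x hx
    obtain ⟨t', _, _, rfl⟩ := hS b y hy
    have := hL.lip (w (lam i t')) (lam i t)
    rw [hL.inv w hw, hL.lev i hiN, hL.lev i hiN, dcomm] at this
    omega
  · simp only [Set.mem_iUnion, Set.mem_ofPred_eq] at hx
    obtain ⟨b, ⟨_, _, _⟩, hx⟩ := hx
    obtain ⟨t, _, _, rfl⟩ := hS b x hx
    have := surv_ray hL hiN a t
    omega
  · obtain ⟨t, _, _, rfl⟩ := hS b x hx
    have := ((h1 a ha).away l hl).trans (survR_le hw _ t)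
    omega
  · obtain ⟨t, _, _, rfl⟩ := hS b x hx
    have := ((h1 a ha).off z hz).trans (survR_le hw _ t)
    omega

end Pool.Agent.MP_77f003_co.H49
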